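import Pool.Agent.Helper30.Full.GoalsG
import Pool.Agent.Helper51.ProP2.Rk

/-!
# CE: the centralising lemma (MP_ac806c_lc)
-/

set_option autoImplicit false

namespace Pool.Agent.Helper93.Full

open Pool.Agent.Helper85.ProP Pool.Agent.Helper30.ProP Pool.Agent.Helper30.Full

universe u

section

variable {G : Type u} [Group G]

lemma cm_inv (a b : G) : (cm a b)⁻¹ = cm b a := by
  unfold cm; group

lemma cm_mem_comm {K : Subgroup G} {a b : G} (h : cm a b ∈ K) : cm b a ∈ K := by
  rw [← cm_inv]; exact K.inv_mem h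

lemma conj_eq (g x : G) : g * x * g⁻¹ = cm g x * x := by
  unfold cm; group

lemma cm_mul_right (g s t : G) : cm g (s * t) = cm g s * (s * cm g t * s⁻¹) := by
  unfold cm; group

lemma cm_mul_left (k k' s : G) : cm (k * k') s = cm k (k' * s * k'⁻¹) * cm k' s := by
  unfold cm; group

/-- a subgroup `H ≤ A` with `[A, G] ≤ K ≤ H` is normal -/
lemma normal_of_cm {K H A : Subgroup G} (hKH : K ≤ H) (hHA : H ≤ A)
    (h : ∀ a ∈ A, ∀ g : G, cm a g ∈ K) : H.Normal := by
  refine ⟨fun x hx g => ?_⟩
  rw [conj_eq]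
  exact H.mul_mem (hKH (cm_mem_comm (h x (hHA hx) g))) hx

/-- `x * y = y * x * k` type statement: conjugation modulo `K` -/
lemma conj_mod {K H : Subgroup G} (hKH : K ≤ H) {s x : G} (h : cm s x ∈ K) (hx : x ∈ H) :
    s * x * s⁻¹ ∈ H := by
  rw [conj_eq]
  exact H.mul_mem (hKH h) hx

lemma mem_of_mk_eq {K H : Subgroup G} [K.Normal] (hKH : K ≤ H) {x y : G}
    (h : QuotientGroup.mk' K x = QuotientGroup.mk' K y) (hx : x ∈ H) : y ∈ H := by
  have h1 : x⁻¹ * y ∈ K := by
    rw [QuotientGroup.mk'_apply, QuotientGroup.mk'_apply] at h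
    exact QuotientGroup.eq.1 h
  have : y = x * (x⁻¹ * y) := by group
  rw [this]
  exact H.mul_mem hx (hKH h1)

lemma commute_of_cm {K : Subgroup G} [K.Normal] {a b : G} (h : cm a b ∈ K) :
    Commute (QuotientGroup.mk' K a) (QuotientGroup.mk' K b) := by
  have h1 : QuotientGroup.mk' K (cm a b) = 1 := by
    rw [QuotientGroup.mk'_apply]
    exact (QuotientGroup.eq_one_iff _).2 h
  unfold cm at h1
  rw [map_mul, map_mul, map_mul, map_inv, map_inv] at h1
  have h2 := mul_inv_eq_one.1 h1
  have h3 := mul_inv_eq_iff_eq_mul.1 h2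
  exact h3

/-- powers of commutators -/
lemma cm_pow {K : Subgroup G} [K.Normal] {A : Subgroup G} {g : G}
    (hc : ∀ s ∈ A, ∀ t ∈ A, cm s (cm g t) ∈ K) {s : G} (hs : s ∈ A) (m : ℕ) :
    QuotientGroup.mk' K (cm g (s ^ m)) = QuotientGroup.mk' K (cm g s) ^ m := by
  induction m with
  | zero =>
    have : cm g (s ^ 0) = 1 := by
      unfold cm
      simp
    rw [this, map_one, pow_zero]
  | succ m ih =>
    rw [pow_succ s m, cm_mul_right, map_mul, ih, pow_succ]
    congr 1
    rw [map_mul, map_mul]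
    have h1 := commute_of_cm (hc (s ^ m) (A.pow_mem hs m) s hs)
    rw [h1.eq, map_inv]
    group

end

section

variable {G : Type u} [Group G] [TopologicalSpace G] [IsTopologicalGroup G]

/-- the elements of `A` whose `m`-th power lies in `H` -/
lemma exists_powSub {K : Subgroup G} [K.Normal] {A H : Subgroup G} (hA : IsClosed (A : Set G))
    (hH : IsClosed (H : Set G)) (hKH : K ≤ H) (hc : ∀ a ∈ A, ∀ b ∈ A, cm a b ∈ K) (m : ℕ) :
    ∃ M : Subgroup G, IsClosed (M : Set G) ∧ ∀ z, z ∈ M ↔ z ∈ A ∧ z ^ m ∈ H := by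
  refine ⟨{ carrier := {z | z ∈ A ∧ z ^ m ∈ H}
            mul_mem' := ?_
            one_mem' := ?_
            inv_mem' := ?_ }, ?_, fun z => Iff.rfl⟩
  · rintro a b ⟨ha, ha'⟩ ⟨hb, hb'⟩
    refine ⟨A.mul_mem ha hb, ?_⟩
    refine mem_of_mk_eq hKH (x := a ^ m * b ^ m) ?_ (H.mul_mem ha' hb')
    rw [map_pow, map_mul, map_mul, (commute_of_cm (hc a ha b hb)).mul_pow, map_pow, map_pow]
  · exact ⟨A.one_mem, by rw [one_pow]; exact H.one_mem⟩
  · rintro a ⟨ha, ha'⟩
    refine ⟨A.inv_mem ha, ?_⟩
    rw [inv_pow]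
    exact H.inv_mem ha'
  · have : {z : G | z ∈ A ∧ z ^ m ∈ H} = (A : Set G) ∩ (fun z : G => z ^ m) ⁻¹' (H : Set G) := rfl
    change IsClosed {z : G | z ∈ A ∧ z ^ m ∈ H}
    rw [this]
    exact hA.inter (hH.preimage (continuous_pow m))

/-- the elements `s` of `A` with `[g, s]` in `H` -/
lemma exists_cmSub {K : Subgroup G} {A H : Subgroup G} (hA : IsClosed (A : Set G))
    (hH : IsClosed (H : Set G)) (hKH : K ≤ H) {g : G}
    (hc : ∀ s ∈ A, ∀ t ∈ A, cm s (cm g t) ∈ K) :
    ∃ M : Subgroup G, IsClosed (M : Set G) ∧ ∀ z, z ∈ M ↔ z ∈ A ∧ cm g z ∈ H := by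
  refine ⟨{ carrier := {z | z ∈ A ∧ cm g z ∈ H}
            mul_mem' := ?_
            one_mem' := ?_
            inv_mem' := ?_ }, ?_, fun z => Iff.rfl⟩
  · rintro a b ⟨ha, ha'⟩ ⟨hb, hb'⟩
    refine ⟨A.mul_mem ha hb, ?_⟩
    rw [cm_mul_right]
    exact H.mul_mem ha' (conj_mod hKH (hc a ha b hb) hb')
  · refine ⟨A.one_mem, ?_⟩
    have : cm g 1 = 1 := by unfold cm; simp
    rw [this]
    exact H.one_mem
  · rintro a ⟨ha, ha'⟩
    refine ⟨A.inv_mem ha, ?_⟩
    have h1 : cm g a⁻¹ = (a⁻¹ * cm g a * a⁻¹⁻¹)⁻¹ := by unfold cm; group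
    rw [h1]
    exact H.inv_mem (conj_mod hKH (hc a⁻¹ (A.inv_mem ha) a ha) ha')
  · have : {z : G | z ∈ A ∧ cm g z ∈ H} = (A : Set G) ∩ (fun z : G => cm g z) ⁻¹' (H : Set G) :=
      rfl
    change IsClosed {z : G | z ∈ A ∧ cm g z ∈ H}
    rw [this]
    refine hA.inter (hH.preimage ?_)
    unfold cm
    fun_prop

/-- the elements `k` with `[k, S] ≤ H` -/
lemma exists_cenSub {S H : Subgroup G} [S.Normal] (hH : IsClosed (H : Set G)) :
    ∃ M : Subgroup G, IsClosed (M : Set G) ∧ ∀ k, k ∈ M ↔ ∀ s ∈ S, cm k s ∈ H := by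
  refine ⟨{ carrier := {k | ∀ s ∈ S, cm k s ∈ H}
            mul_mem' := ?_
            one_mem' := ?_
            inv_mem' := ?_ }, ?_, fun z => Iff.rfl⟩
  · intro a b ha hb s hs
    rw [cm_mul_left]
    exact H.mul_mem (ha _ (Subgroup.Normal.conj_mem inferInstance s hs b)) (hb s hs)
  · intro s hs
    have : cm 1 s = 1 := by unfold cm; simp
    rw [this]
    exact H.one_mem
  · intro a ha s hs
    have h1 : cm a⁻¹ s = (cm a (a⁻¹ * s * a⁻¹⁻¹))⁻¹ := by unfold cm; group
    rw [h1]
    exact H.inv_mem (ha _ (Subgroup.Normal.conj_mem inferInstance s hs a⁻¹))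
  · have : {k : G | ∀ s ∈ S, cm k s ∈ H} = ⋂ s : S, (fun k : G => cm k s) ⁻¹' (H : Set G) := by
      ext k
      simp
    change IsClosed {k : G | ∀ s ∈ S, cm k s ∈ H}
    rw [this]
    refine isClosed_iInter fun s => hH.preimage ?_
    unfold cm
    fun_prop

/-- the closed subgroup generated by `Y` and `X` -/
def cl (Y : Subgroup G) (X : Set G) : Subgroup G :=
  (Subgroup.closure ((Y : Set G) ∪ X)).topologicalClosure

lemma isClosed_cl (Y : Subgroup G) (X : Set G) : IsClosed (cl Y X : Set G) :=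
  Subgroup.isClosed_topologicalClosure _

lemma le_cl (Y : Subgroup G) (X : Set G) : Y ≤ cl Y X := fun _ hy =>
  Subgroup.le_topologicalClosure _ (Subgroup.subset_closure (Or.inl hy))

lemma sub_cl (Y : Subgroup G) (X : Set G) : X ⊆ (cl Y X : Set G) := fun _ hy =>
  Subgroup.le_topologicalClosure _ (Subgroup.subset_closure (Or.inr hy))

lemma cl_le {Y : Subgroup G} {X : Set G} {H : Subgroup G} (hH : IsClosed (H : Set G))
    (hY : Y ≤ H) (hX : X ⊆ (H : Set G)) : cl Y X ≤ H := by
  apply Subgroup.topologicalClosure_minimal _ _ hH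
  rw [Subgroup.closure_le]
  exact Set.union_subset hY hX

end

theorem stmtCE : StmtCE.{u} := by
  intro p _ G _ _ _ _ _ _ hPP hFG Y Z hYn hYc hZn hZc hYZ hcen n
  induction n generalizing Y Z with
  | zero =>
    rintro ⟨N, hN0, hNn, -, -⟩
    have hZ : Z = ⊤ := by rw [← hN0, hNn]
    obtain ⟨S, hS⟩ := hFG
    refine ⟨S, ?_, ?_⟩
    · rw [hZ]
      intro x _
      exact Subgroup.mem_top x
    · intro H hH _ hSH z _
      have h1 : (⊤ : Subgroup G) ≤ H := by
        rw [← hS]
        apply Subgroup.topologicalClosure_minimal _ _ hH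
        rw [Subgroup.closure_le]
        exact hSH
      exact h1 (Subgroup.mem_top _)
  | succ n ih =>
    rintro ⟨N, hN0, hNn, hNnc, hN⟩
    obtain ⟨hZS', hab', hPF'⟩ := hN 0 (Nat.succ_pos n)
    set S : Subgroup G := N (0 + 1) with hSdef
    rw [hN0] at hZS' hab' hPF'
    have hSn : S.Normal := (hNnc _).1
    have hSc : IsClosed (S : Set G) := (hNnc _).2
    have hFESS : FES p S n := by
      refine ⟨fun i => N (i + 1), rfl, hNn, fun i => hNnc _, fun i hi => ?_⟩
      exact hN (i + 1) (by omega)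
    have hZY : ∀ z ∈ Z, ∀ g : G, cm g z ∈ Y := fun z hz g => cm_mem_comm (hcen z hz g)
    -- the subgroup Y1
    set X1 : Set G := {x | ∃ s ∈ S, ∃ s' ∈ S, x = cm s s'} with hX1
    set Y1 : Subgroup G := cl Y X1 with hY1
    have hY1c : IsClosed (Y1 : Set G) := isClosed_cl _ _
    have hYY1 : Y ≤ Y1 := le_cl _ _
    have hY1Z : Y1 ≤ Z := by
      apply cl_le hZc hYZ
      rintro _ ⟨s, hs, s', hs', rfl⟩
      exact hab' s hs s' hs'
    have hY1n : Y1.Normal := normal_of_cm hYY1 hY1Z hcen
    have hSS : ∀ s ∈ S, ∀ s' ∈ S, cm s s' ∈ Y1 := fun s hs s' hs' =>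
      sub_cl _ _ ⟨s, hs, s', hs', rfl⟩
    -- the subgroup Y2
    set X2 : Set G := {x | ∃ g : G, ∃ s ∈ S, x = cm g s} with hX2
    set Y2 : Subgroup G := cl Y X2 with hY2
    have hY2c : IsClosed (Y2 : Set G) := isClosed_cl _ _
    have hYY2 : Y ≤ Y2 := le_cl _ _
    have hcmS : ∀ g : G, ∀ s ∈ S, cm g s ∈ S := by
      intro g s hs
      have h1 : cm g s = (g * s * g⁻¹) * s⁻¹ := by unfold cm; group
      rw [h1]
      exact S.mul_mem (hSn.conj_mem s hs g) (S.inv_mem hs)
    have hY2S : Y2 ≤ S := by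
      apply cl_le hSc (hYZ.trans hZS')
      rintro _ ⟨g, s, hs, rfl⟩
      exact hcmS g s hs
    have hcenS : ∀ s ∈ S, ∀ g : G, cm s g ∈ Y2 := fun s hs g =>
      cm_mem_comm (sub_cl Y X2 ⟨g, s, hs, rfl⟩)
    have hY2n : Y2.Normal := normal_of_cm le_rfl hY2S hcenS
    have hY1Y2 : Y1 ≤ Y2 := by
      apply cl_le hY2c hYY2
      rintro _ ⟨s, hs, s', hs', rfl⟩
      exact hcenS s hs s'
    -- induction hypothesis
    obtain ⟨F1, hF1S, hF1⟩ := ih Y2 S hY2n hY2c hSn hSc hY2S hcenS hFESS
    set L : Subgroup G := cl Y2 (F1 : Set G) with hL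
    have hLc : IsClosed (L : Set G) := isClosed_cl _ _
    have hY2L : Y2 ≤ L := le_cl _ _
    have hLS : L ≤ S := cl_le hSc hY2S hF1S
    have hLn : L.Normal := normal_of_cm hY2L hLS hcenS
    have hLfg : FGmod Y2 L := ⟨F1, sub_cl _ _, fun H hH h1 h2 => cl_le hH h1 h2⟩
    obtain ⟨r, hr⟩ := Pool.Agent.Helper51.ProP2.stmtRk p G hPP Y2 L hY2n hY2c hLn hLc hY2L
      (fun a ha b _ => hcenS a (hLS ha) b) hLfg
    obtain ⟨t, ht1, ht2⟩ := hr Z hZc
    -- claim (4)
    have hclaim : PFG p 2 Y (Z ⊓ Y2) := by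
      rcases hPF' with hP | hF
      · refine ⟨∅, by simp, ?_⟩
        intro H hH hYH _ y hy
        -- y ^ p ∈ Y1
        have h1 : ∀ y ∈ Y2, y ^ p ∈ Y1 := by
          obtain ⟨M, hMc, hM⟩ := exists_powSub (K := Y1) hSc hY1c le_rfl hSS p
          have : Y2 ≤ M := by
            apply cl_le hMc
            · intro y hy
              exact (hM y).2 ⟨hZS' (hYZ hy), hYY1 (Y.pow_mem hy p)⟩
            · rintro _ ⟨g, s, hs, rfl⟩
              refine (hM _).2 ⟨hcmS g s hs, ?_⟩
              have h2 := cm_pow (K := Y1) (A := S) (g := g)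
                (fun a ha b hb => hSS a ha _ (hcmS g b hb)) hs p
              rw [← map_pow] at h2
              exact mem_of_mk_eq le_rfl h2 (hYY1 (hZY _ (hP s hs) g))
          exact fun y hy => ((hM y).1 (this hy)).2
        have h3 : ∀ y ∈ Y1, y ^ p ∈ Y := by
          obtain ⟨M, hMc, hM⟩ := exists_powSub (K := Y) hZc hYc le_rfl
            (fun a ha b _ => hcen a ha b) p
          have : Y1 ≤ M := by
            apply cl_le hMc
            · intro y hy
              exact (hM y).2 ⟨hYZ hy, Y.pow_mem hy p⟩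
            · rintro _ ⟨s, hs, s', hs', rfl⟩
              refine (hM _).2 ⟨hab' s hs s' hs', ?_⟩
              have h2 := cm_pow (K := Y) (A := S) (g := s)
                (fun a _ b hb => hZY _ (hab' s hs b hb) a) hs' p
              rw [← map_pow] at h2
              exact mem_of_mk_eq le_rfl h2 (hZY _ (hP s' hs') s)
          exact fun y hy => ((hM y).1 (this hy)).2
        have h4 := h3 _ (h1 y hy.2)
        rw [← pow_mul, ← pow_two] at h4
        exact hYH h4
      · obtain ⟨FS, hFS1, hFS2⟩ := hF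
        obtain ⟨FG, hFG'⟩ := hFG
        classical
        -- Y1 is finitely generated modulo Y
        have hfg1 : FGmod Y Y1 := by
          refine ⟨(FS ×ˢ FS).image fun q => cm q.1 q.2, ?_, ?_⟩
          · intro x hx
            rw [Finset.coe_image] at hx
            obtain ⟨⟨a, b⟩, hab, rfl⟩ := hx
            rw [Finset.mem_coe, Finset.mem_product] at hab
            exact hSS a (hFS1 hab.1) b (hFS1 hab.2)
          · intro H hH hYH hFH
            have hgen : ∀ a ∈ FS, ∀ b ∈ FS, cm a b ∈ H := by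
              intro a ha b hb
              apply hFH
              rw [Finset.coe_image]
              exact ⟨(a, b), by rw [Finset.mem_coe, Finset.mem_product]; exact ⟨ha, hb⟩, rfl⟩
            have hcZ : ∀ g ∈ S, ∀ s ∈ S, ∀ t ∈ S, cm s (cm g t) ∈ Y := fun g hg s _ t ht =>
              hZY _ (hab' g hg t ht) s
            have step1 : ∀ a ∈ FS, ∀ s ∈ S, cm a s ∈ H := by
              intro a ha
              obtain ⟨M, hMc, hM⟩ := exists_cmSub (K := Y) hSc hH hYH (g := a)
                (hcZ a (hFS1 ha))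
              have : S ≤ M := by
                apply hFS2 M hMc
                · intro z hz
                  exact (hM z).2 ⟨hZS' hz, hYH (hZY z hz a)⟩
                · intro b hb
                  exact (hM b).2 ⟨hFS1 hb, hgen a ha b hb⟩
              exact fun s hs => ((hM s).1 (this hs)).2
            have step2 : ∀ s ∈ S, ∀ s' ∈ S, cm s s' ∈ H := by
              intro s hs
              obtain ⟨M, hMc, hM⟩ := exists_cmSub (K := Y) hSc hH hYH (g := s)
                (hcZ s hs)
              have : S ≤ M := by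
                apply hFS2 M hMc
                · intro z hz
                  exact (hM z).2 ⟨hZS' hz, hYH (hZY z hz s)⟩
                · intro b hb
                  exact (hM b).2 ⟨hFS1 hb, cm_mem_comm (step1 b hb s hs)⟩
              exact fun s hs => ((hM s).1 (this hs)).2
            apply cl_le hH hYH
            rintro _ ⟨s, hs, s', hs', rfl⟩
            exact step2 s hs s' hs'
        -- Y2 is finitely generated modulo Y1
        have hfg2 : FGmod Y1 Y2 := by
          refine ⟨(FG ×ˢ FS).image fun q => cm q.1 q.2, ?_, ?_⟩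
          · intro x hx
            rw [Finset.coe_image] at hx
            obtain ⟨⟨a, b⟩, hab, rfl⟩ := hx
            rw [Finset.mem_coe, Finset.mem_product] at hab
            exact sub_cl _ _ ⟨a, b, hFS1 hab.2, rfl⟩
          · intro H hH hYH hFH
            have hgen : ∀ a ∈ FG, ∀ b ∈ FS, cm a b ∈ H := by
              intro a ha b hb
              apply hFH
              rw [Finset.coe_image]
              exact ⟨(a, b), by rw [Finset.mem_coe, Finset.mem_product]; exact ⟨ha, hb⟩, rfl⟩
            have step1 : ∀ a ∈ FG, ∀ s ∈ S, cm a s ∈ H := by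
              intro a ha
              obtain ⟨M, hMc, hM⟩ := exists_cmSub (K := Y1) hSc hH hYH (g := a)
                (fun s hs t ht => hSS s hs _ (hcmS a t ht))
              have : S ≤ M := by
                apply hFS2 M hMc
                · intro z hz
                  exact (hM z).2 ⟨hZS' hz, hYH (hYY1 (hZY z hz a))⟩
                · intro b hb
                  exact (hM b).2 ⟨hFS1 hb, hgen a ha b hb⟩
              exact fun s hs => ((hM s).1 (this hs)).2
            obtain ⟨M, hMc, hM⟩ := exists_cenSub (S := S) hH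
            have hMtop : (⊤ : Subgroup G) ≤ M := by
              rw [← hFG']
              apply Subgroup.topologicalClosure_minimal _ _ hMc
              rw [Subgroup.closure_le]
              intro a ha
              exact (hM a).2 (step1 a ha)
            apply cl_le hH (hYY1.trans hYH)
            rintro _ ⟨g, s, hs, rfl⟩
            exact (hM g).1 (hMtop (Subgroup.mem_top g)) s hs
        obtain ⟨r', hr'⟩ := Pool.Agent.Helper51.ProP2.stmtRk p G hPP Y1 Y2 hY1n hY1c hY2n hY2c
          hY1Y2 (fun a ha b hb => hSS a (hY2S ha) b (hY2S hb)) hfg2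
        obtain ⟨t', ht1', ht2'⟩ := hr' Z hZc
        obtain ⟨FY, hFY1, hFY2⟩ := hfg1
        refine ⟨FY ∪ Finset.univ.image t', ?_, ?_⟩
        · intro x hx
          rw [Finset.coe_union] at hx
          rcases hx with hx | hx
          · exact ⟨hY1Z (hFY1 hx), hY1Y2 (hFY1 hx)⟩
          · rw [Finset.coe_image] at hx
            obtain ⟨i, -, rfl⟩ := hx
            exact ht1' i
        · intro H hH hYH hFH y hy
          rw [Finset.coe_union] at hFH
          have h1 : Y1 ≤ H := hFY2 H hH hYH (fun x hx => hFH (Or.inl hx))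
          have h2 : Z ⊓ Y2 ≤ H := by
            apply ht2' H hH (inf_le_right.trans h1)
            intro i
            apply hFH
            right
            rw [Finset.coe_image]
            exact ⟨i, by simp, rfl⟩
          exact H.pow_mem (h2 hy) _
    -- conclusion
    obtain ⟨F3, hF31, hF32⟩ := hclaim
    classical
    refine ⟨F3 ∪ Finset.univ.image t, ?_, ?_⟩
    · intro x hx
      rw [Finset.coe_union] at hx
      rcases hx with hx | hx
      · exact (hF31 hx).1
      · rw [Finset.coe_image] at hx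
        obtain ⟨i, -, rfl⟩ := hx
        exact (ht1 i).1
    · intro H hH hYH hFH z hz
      rw [Finset.coe_union] at hFH
      obtain ⟨M, hMc, hM⟩ := exists_powSub (K := Y) hZc hH hYH
        (fun a ha b _ => hcen a ha b) (p ^ 2)
      have h1 : Z ⊓ L ≤ M := by
        apply ht2 M hMc
        · intro y hy
          exact (hM y).2 ⟨hy.1, hF32 H hH hYH (fun x hx => hFH (Or.inl hx)) y hy⟩
        · intro i
          refine (hM _).2 ⟨(ht1 i).1, H.pow_mem ?_ _⟩
          apply hFH
          right
          rw [Finset.coe_image]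
          exact ⟨i, by simp, rfl⟩
      have h2 : z ^ p ^ (2 * n) ∈ L := hF1 L hLc hY2L (sub_cl _ _) z (hZS' hz)
      have h3 := ((hM _).1 (h1 ⟨Z.pow_mem hz _, h2⟩)).2
      rw [← pow_mul, ← pow_add] at h3
      have h4 : 2 * n + 2 = 2 * (n + 1) := by ring
      rw [h4] at h3
      exact h3

end Pool.Agent.Helper93.Full
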